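import Pool.Agent.H25.Rand6

namespace Pool.Agent.Results.MP_eefa83_lc.NotPreserved

open FirstOrder FirstOrder.Language Cardinal Pool.Agent.H25.Rand

/-- A complete theory in a countable language that is `κ`-stable for all `κ ≥ 2^ℵ₀`, whose
randomization is not `κ`-stable for any infinite `κ < κ^ℵ₀`; so for some infinite `κ` the theory
is `κ`-stable while its randomization is not. -/
theorem result : ∃ (L : FirstOrder.Language.{0, 0}) (T : L.Theory), L.card ≤ ℵ₀ ∧ T.IsComplete ∧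
    (∀ κ : Cardinal.{0}, 𝔠 ≤ κ → Stable T κ) ∧
    (∀ κ : Cardinal.{0}, ℵ₀ ≤ κ → κ < κ ^ ℵ₀ → ¬ RStable T κ) ∧
    ∃ κ : Cardinal.{0}, ℵ₀ ≤ κ ∧ Stable T κ ∧ ¬ RStable T κ := by
  refine ⟨LU, LU.completeTheory MM, LU_card, completeTheory.isComplete LU MM,
    stable_LU _, not_rstable, ?_⟩
  obtain ⟨κ, h1, h2⟩ := exists_kappa
  have h0 : ℵ₀ ≤ κ := aleph0_le_continuum.trans h1
  exact ⟨κ, h0, stable_LU _ κ h1, not_rstable κ h0 h2⟩

end Pool.Agent.Results.MP_eefa83_lc.NotPreserved
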